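import Mathlib

/-!
# Termwise homogenization of infinite sums of Brooks quasimorphisms

On every non-abelian free group of finite rank there is an alternating coefficient map `β`,
bounded and supported on the non-self-overlapping words, such that the termwise homogenization
of the infinite sum of Brooks quasimorphisms with coefficients `β` vanishes identically, while
the sum itself is not a quasimorphism.
-/

open Filter Topology

namespace Pool.Agent.Results.MP_c1a8be_al.BrooksTermwise

section Defs

variable {S : Type*} [DecidableEq S]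

/-- The number of occurrences of the word `w` as a contiguous subword of the word `l`
(the number of suffixes of `l` that start with `w`). -/
def occ (w l : List (S × Bool)) : ℕ := l.tails.countP (fun t => decide (w <+: t))

/-- A nontrivial reduced word is non-self-overlapping if no nonempty proper initial segment of it
is also a final segment. -/
def NonSelfOverlapping (w : FreeGroup S) : Prop :=
  w ≠ 1 ∧ ∀ u : List (S × Bool), u ≠ [] → u ≠ w.toWord → u <+: w.toWord → ¬ u <:+ w.toWord

/-- The Brooks quasimorphism of a non-self-overlapping word `w`: the number of occurrences of `w`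
minus the number of occurrences of `w⁻¹`. -/
noncomputable def brooks (w g : FreeGroup S) : ℝ :=
  (occ w.toWord g.toWord : ℝ) - (occ w⁻¹.toWord g.toWord : ℝ)

/-- The homogenization of the Brooks quasimorphism. -/
noncomputable def brooksBar (w g : FreeGroup S) : ℝ :=
  limUnder atTop (fun n : ℕ => brooks w (g ^ n) / (n : ℝ))

/-- `P` contains exactly one of `w`, `w⁻¹` for each non-self-overlapping `w`, and nothing else. -/
structure IsHalf (P : Set (FreeGroup S)) : Prop where
  sub : ∀ w ∈ P, NonSelfOverlapping w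
  one : ∀ w, NonSelfOverlapping w → (w ∈ P ∧ w⁻¹ ∉ P) ∨ (w ∉ P ∧ w⁻¹ ∈ P)

/-- Quasimorphisms. -/
def IsQuasi (f : FreeGroup S → ℝ) : Prop := ∃ D : ℝ, ∀ g k, |f g + f k - f (g * k)| ≤ D

/-- The infinite sum of Brooks quasimorphisms with coefficients `α`. -/
noncomputable def brooksSum (α : FreeGroup S → ℝ) (P : Set (FreeGroup S)) (g : FreeGroup S) : ℝ :=
  ∑ᶠ w ∈ P, α w * brooks w g

/-- The termwise homogenization of the infinite sum. -/
noncomputable def brooksBarSum (α : FreeGroup S → ℝ) (P : Set (FreeGroup S)) (g : FreeGroup S) :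
    ℝ :=
  ∑ᶠ w ∈ P, α w * brooksBar w g

end Defs

section Occ

variable {S : Type*} [DecidableEq S]

lemma occ_nil (w : List (S × Bool)) : occ w [] = if w = [] then 1 else 0 := by
  simp [occ]

lemma occ_nil' {w : List (S × Bool)} (h : w ≠ []) : occ w [] = 0 := by
  simp [occ_nil, h]

lemma occ_cons (w : List (S × Bool)) (y : S × Bool) (u : List (S × Bool)) :
    occ w (y :: u) = (if w <+: y :: u then 1 else 0) + occ w u := by
  simp only [occ, List.tails_cons, List.countP_cons]
  simp [add_comm]

/-- number of occurrences of `w` in `A ++ u` starting in `A` -/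
def cnt (w : List (S × Bool)) : List (S × Bool) → List (S × Bool) → ℕ
  | [], _ => 0
  | (y :: A), u => (if w <+: y :: (A ++ u) then 1 else 0) + cnt w A u

lemma occ_append (w A u : List (S × Bool)) : occ w (A ++ u) = cnt w A u + occ w u := by
  induction A with
  | nil => simp [cnt]
  | cons y A ih => rw [List.cons_append, occ_cons, ih, cnt, add_assoc]

lemma cnt_congr {w : List (S × Bool)} {u u' : List (S × Bool)} (h : u <+: u')
    (hl : w.length ≤ u.length) (A : List (S × Bool)) : cnt w A u = cnt w A u' := by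
  induction A with
  | nil => rfl
  | cons y A ih =>
    rw [cnt, cnt, ih]
    congr 1
    have hp : y :: (A ++ u) <+: y :: (A ++ u') := by
      obtain ⟨t, rfl⟩ := h
      exact ⟨t, by simp⟩
    have : (w <+: y :: (A ++ u)) ↔ (w <+: y :: (A ++ u')) := by
      constructor
      · intro h1; exact h1.trans hp
      · intro h1
        exact List.prefix_of_prefix_length_le h1 hp (by simp; omega)
    simp [this]

lemma occ_eq_zero {w u : List (S × Bool)} (h : ¬ w <:+: u) : occ w u = 0 := by
  rw [occ, List.countP_eq_zero]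
  intro t ht h1
  rw [List.mem_tails] at ht
  exact h ((of_decide_eq_true h1).isInfix.trans ht.isInfix)

variable [Fintype S]

/-- left extension -/
lemma occ_left (w u : List (S × Bool)) :
    occ w u = (if w <+: u then 1 else 0) + ∑ x : S × Bool, occ (x :: w) u := by
  induction u with
  | nil => simp [occ_nil]
  | cons y u ih =>
    rw [occ_cons]
    congr 1
    have : ∀ x : S × Bool, occ (x :: w) (y :: u) =
        (if x = y then (if w <+: u then 1 else 0) else 0) + occ (x :: w) u := by
      intro x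
      rw [occ_cons]
      congr 1
      by_cases hx : x = y <;> simp [hx, List.cons_prefix_cons]
    simp only [this, Finset.sum_add_distrib]
    simpa using ih

/-- right extension -/
lemma occ_right (w u : List (S × Bool)) :
    occ w u = (if w <:+ u then 1 else 0) + ∑ x : S × Bool, occ (w ++ [x]) u := by
  induction u with
  | nil => simp [occ_nil]
  | cons y u ih =>
    simp only [occ_cons, Finset.sum_add_distrib]
    rw [ih]
    have key : (if w <+: y :: u then 1 else 0) + (if w <:+ u then 1 else 0) =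
        (if w <:+ y :: u then 1 else 0) +
          ∑ x : S × Bool, (if w ++ [x] <+: y :: u then 1 else 0) := by
      by_cases hE : w = y :: u
      · subst hE
        have h1 : ¬ (y :: u <:+ u) := fun h => by
          have := h.length_le; simp at this
        have h2 : ∀ x : S × Bool, ¬ ((y :: u) ++ [x] <+: y :: u) := fun x h => by
          have := h.length_le; simp at this
        simp only [h1, h2]
        simp
      · have h0 : (w <:+ y :: u) ↔ (w <:+ u) := by
          rw [List.suffix_cons_iff]; simp [hE]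
        by_cases hp : w <+: y :: u
        · obtain ⟨t, ht⟩ := hp
          cases t with
          | nil => exact absurd (by simpa using ht) hE
          | cons z t =>
            have h3 : ∀ x : S × Bool, (w ++ [x] <+: y :: u) ↔ x = z := by
              intro x
              rw [← ht, List.prefix_append_right_inj]
              simp [List.cons_prefix_cons]
            have h4 : w <+: y :: u := ⟨z :: t, ht⟩
            simp only [h0, h3, h4, if_true]
            simp [add_comm]
        · have h3 : ∀ x : S × Bool, ¬ (w ++ [x] <+: y :: u) := by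
            intro x hx
            exact hp ((List.prefix_append w [x]).trans hx)
          simp [h0, hp, h3]
    omega

end Occ

section Words

variable {S : Type*} [DecidableEq S]

open List

/-- the two families of words -/
def IsP (s0 : S) (w : FreeGroup S) : Prop :=
  ∃ (e : Bool) (j : ℕ) (x : S × Bool), 1 ≤ j ∧ x.1 ≠ s0 ∧
    w.toWord = replicate j (s0, e) ++ [x]

/-- the two families of words -/
def IsQ (s0 : S) (w : FreeGroup S) : Prop :=
  ∃ (e : Bool) (j : ℕ) (x : S × Bool), 1 ≤ j ∧ x.1 ≠ s0 ∧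
    w.toWord = x :: replicate j (s0, e)

open Classical in
/-- the coefficient map -/
noncomputable def beta (s0 : S) (w : FreeGroup S) : ℝ :=
  (if IsP s0 w then 1 else 0) - (if IsQ s0 w then 1 else 0)

omit [DecidableEq S] in
lemma invRev_P (s0 : S) (e : Bool) (j : ℕ) (x : S × Bool) :
    FreeGroup.invRev (replicate j (s0, e) ++ [x]) = (x.1, !x.2) :: replicate j (s0, !e) := by
  simp [FreeGroup.invRev]

omit [DecidableEq S] in
lemma invRev_Q (s0 : S) (e : Bool) (j : ℕ) (x : S × Bool) :
    FreeGroup.invRev (x :: replicate j (s0, e)) = replicate j (s0, !e) ++ [(x.1, !x.2)] := by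
  simp [FreeGroup.invRev]

lemma isP_inv {s0 : S} {w : FreeGroup S} : IsP s0 w⁻¹ ↔ IsQ s0 w := by
  constructor
  · rintro ⟨e, j, x, hj, hx, h⟩
    refine ⟨!e, j, (x.1, !x.2), hj, hx, ?_⟩
    have := congrArg FreeGroup.invRev h
    rw [FreeGroup.toWord_inv, FreeGroup.invRev_invRev, invRev_P] at this
    exact this
  · rintro ⟨e, j, x, hj, hx, h⟩
    refine ⟨!e, j, (x.1, !x.2), hj, hx, ?_⟩
    rw [FreeGroup.toWord_inv, h, invRev_Q]

lemma isQ_inv {s0 : S} {w : FreeGroup S} : IsQ s0 w⁻¹ ↔ IsP s0 w := by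
  rw [← isP_inv, inv_inv]

lemma beta_inv (s0 : S) (w : FreeGroup S) : beta s0 w⁻¹ = - beta s0 w := by
  have h1 := @isP_inv S _ s0 w
  have h2 := @isQ_inv S _ s0 w
  by_cases hp : IsP s0 w <;> by_cases hq : IsQ s0 w <;>
    simp only [hp, hq, iff_true, iff_false] at h1 h2 <;> simp [beta, h1, h2, hp, hq]

lemma isP_last {s0 : S} {w : FreeGroup S} (h : IsP s0 w) :
    ∃ x : S × Bool, x.1 ≠ s0 ∧ w.toWord.getLast? = some x := by
  obtain ⟨e, j, x, hj, hx, h⟩ := h
  exact ⟨x, hx, by rw [h]; simp⟩

lemma isQ_last {s0 : S} {w : FreeGroup S} (h : IsQ s0 w) :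
    ∃ x : S × Bool, x.1 = s0 ∧ w.toWord.getLast? = some x := by
  obtain ⟨e, j, x, hj, hx, h⟩ := h
  refine ⟨(s0, e), rfl, ?_⟩
  obtain ⟨k, rfl⟩ : ∃ k, j = k + 1 := ⟨j - 1, by omega⟩
  rw [h, replicate_succ', ← cons_append, List.getLast?_concat]

lemma not_both {s0 : S} {w : FreeGroup S} (h : IsP s0 w) (h' : IsQ s0 w) : False := by
  obtain ⟨x, hx, h1⟩ := isP_last h
  obtain ⟨y, hy, h2⟩ := isQ_last h'
  rw [h1] at h2
  cases h2
  exact hx hy

lemma beta_P {s0 : S} {w : FreeGroup S} (h : IsP s0 w) : beta s0 w = 1 := by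
  have h' : ¬ IsQ s0 w := fun h' => not_both h h'
  simp [beta, h, h']

lemma beta_Q {s0 : S} {w : FreeGroup S} (h : IsQ s0 w) : beta s0 w = -1 := by
  have h' : ¬ IsP s0 w := fun h' => not_both h' h
  simp [beta, h, h']

lemma beta_ne {s0 : S} {w : FreeGroup S} (h : beta s0 w ≠ 0) : IsP s0 w ∨ IsQ s0 w := by
  by_contra hc
  push Not at hc
  exact h (by simp [beta, hc.1, hc.2])

lemma beta_abs (s0 : S) (w : FreeGroup S) : |beta s0 w| ≤ 1 := by
  by_cases h : beta s0 w = 0
  · simp [h]
  · rcases beta_ne h with h | h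
    · simp [beta_P h]
    · simp [beta_Q h]

lemma nso_P {s0 : S} {w : FreeGroup S} (h : IsP s0 w) : NonSelfOverlapping w := by
  obtain ⟨e, j, x, hj, hx, h⟩ := h
  refine ⟨fun h1 => by simp [h1] at h, fun u hu hne hp hs => ?_⟩
  rw [h] at hp hs hne
  -- `u` is a proper initial segment so consists of letters `s0`
  have h1 : u <+: replicate j (s0, e) := by
    have hlen : u.length ≤ j := by
      by_contra hc
      have := hp.length_le
      simp at this
      exact hne (hp.eq_of_length (by simp; omega))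
    exact List.prefix_of_prefix_length_le hp (List.prefix_append _ _) (by simpa using hlen)
  have h2 : u.getLast hu = x := by
    have := hs.getLast hu
    rw [this]; simp
  have h3 : u.getLast hu ∈ replicate j (s0, e) := h1.subset (List.getLast_mem hu)
  rw [h2] at h3
  exact hx (by rw [List.eq_of_mem_replicate h3])

lemma nso_Q {s0 : S} {w : FreeGroup S} (h : IsQ s0 w) : NonSelfOverlapping w := by
  obtain ⟨e, j, x, hj, hx, h⟩ := h
  refine ⟨fun h1 => by simp [h1] at h, fun u hu hne hp hs => ?_⟩
  rw [h] at hp hs hne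
  have h1 : u <:+ replicate j (s0, e) := by
    rw [List.suffix_cons_iff] at hs
    exact hs.resolve_left hne
  obtain ⟨y, v, rfl⟩ : ∃ y v, u = y :: v := List.exists_cons_of_ne_nil hu
  rw [List.cons_prefix_cons] at hp
  have h3 : y ∈ replicate j (s0, e) := h1.subset (by simp)
  rw [hp.1] at h3
  exact hx (by rw [List.eq_of_mem_replicate h3])

/-- the word `a^j x` -/
def wP (s0 : S) (i : Bool × ℕ × (S × Bool)) : List (S × Bool) :=
  replicate i.2.1 (s0, i.1) ++ [i.2.2]

/-- the word `x a^j` -/
def wQ (s0 : S) (i : Bool × ℕ × (S × Bool)) : List (S × Bool) :=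
  i.2.2 :: replicate i.2.1 (s0, i.1)

omit [DecidableEq S] in
lemma isReduced_replicate (j : ℕ) (x : S × Bool) : FreeGroup.IsReduced (replicate j x) := by
  rw [FreeGroup.IsReduced]
  exact List.isChain_replicate_of_rel _ (fun _ => rfl)

omit [DecidableEq S] in
lemma isReduced_wP {s0 : S} {i : Bool × ℕ × (S × Bool)} (h : i.2.2.1 ≠ s0) :
    FreeGroup.IsReduced (wP s0 i) := by
  rw [FreeGroup.IsReduced, wP, List.isChain_append]
  refine ⟨isReduced_replicate _ _, List.isChain_singleton _, ?_⟩
  intro x hx y hy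
  have hx' := List.eq_of_mem_replicate (List.mem_of_getLast? hx)
  simp only [head?_cons, Option.mem_def, Option.some.injEq] at hy
  subst hx' hy
  intro h'
  exact absurd h'.symm h

omit [DecidableEq S] in
lemma isReduced_wQ {s0 : S} {i : Bool × ℕ × (S × Bool)} (h : i.2.2.1 ≠ s0) :
    FreeGroup.IsReduced (wQ s0 i) := by
  rw [FreeGroup.IsReduced, wQ, List.isChain_cons]
  refine ⟨?_, isReduced_replicate _ _⟩
  intro x hx
  have hx' := List.eq_of_mem_replicate (List.mem_of_head? hx)
  subst hx'
  intro h'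
  exact absurd h' h

lemma toWord_wP {s0 : S} {i : Bool × ℕ × (S × Bool)} (h : i.2.2.1 ≠ s0) :
    (FreeGroup.mk (wP s0 i)).toWord = wP s0 i := by
  rw [FreeGroup.toWord_mk]
  exact (isReduced_wP h).reduce_eq

lemma toWord_wQ {s0 : S} {i : Bool × ℕ × (S × Bool)} (h : i.2.2.1 ≠ s0) :
    (FreeGroup.mk (wQ s0 i)).toWord = wQ s0 i := by
  rw [FreeGroup.toWord_mk]
  exact (isReduced_wQ h).reduce_eq

end Words

section Sums

variable {S : Type*} [DecidableEq S] [Fintype S]

open List

/-- the index set -/
def idx (s0 : S) (L : ℕ) : Finset (Bool × ℕ × (S × Bool)) :=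
  Finset.univ ×ˢ Finset.Icc 1 L ×ˢ Finset.univ.filter (fun x : S × Bool => x.1 ≠ s0)

lemma mem_idx {s0 : S} {L : ℕ} {i : Bool × ℕ × (S × Bool)} :
    i ∈ idx s0 L ↔ (1 ≤ i.2.1 ∧ i.2.1 ≤ L) ∧ i.2.2.1 ≠ s0 := by
  simp [idx]

lemma wP_inj {s0 : S} {L : ℕ} : Set.InjOn (fun i => FreeGroup.mk (wP s0 i)) (idx s0 L : Set _) := by
  rintro ⟨e, j, x⟩ hi ⟨e', j', x'⟩ hi' h
  have hi := mem_idx.1 hi
  have hi' := mem_idx.1 hi'
  have h := congrArg FreeGroup.toWord h
  simp only at hi hi' h
  rw [toWord_wP hi.2, toWord_wP hi'.2, wP, wP] at h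
  have hl : j = j' := by
    have := congrArg List.length h
    simpa using this
  subst hl
  have h2 := List.append_inj' h rfl
  have h3 : x = x' := by simpa using h2.2
  subst h3
  have h4 : (s0, e) = (s0, e') := by
    have := h2.1
    simp only at this
    obtain ⟨k, rfl⟩ : ∃ k, j = k + 1 := ⟨j - 1, by omega⟩
    rw [replicate_succ, replicate_succ] at this
    exact (List.cons.inj this).1
  simp only [Prod.mk.injEq, true_and] at h4
  rw [h4]

lemma wQ_inj {s0 : S} {L : ℕ} : Set.InjOn (fun i => FreeGroup.mk (wQ s0 i)) (idx s0 L : Set _) := by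
  rintro ⟨e, j, x⟩ hi ⟨e', j', x'⟩ hi' h
  have hi := mem_idx.1 hi
  have hi' := mem_idx.1 hi'
  have h := congrArg FreeGroup.toWord h
  simp only at hi hi' h
  rw [toWord_wQ hi.2, toWord_wQ hi'.2, wQ, wQ] at h
  have hl : j = j' := by
    have := congrArg List.length h
    simpa using this
  subst hl
  have h2 := List.cons.inj h
  have h3 : x = x' := h2.1
  subst h3
  have h4 : (s0, e) = (s0, e') := by
    have := h2.2
    simp only at this
    obtain ⟨k, rfl⟩ : ∃ k, j = k + 1 := ⟨j - 1, by omega⟩
    rw [replicate_succ, replicate_succ] at this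
    exact (List.cons.inj this).1
  simp only [Prod.mk.injEq, true_and] at h4
  rw [h4]

lemma isP_mk {s0 : S} {L : ℕ} {i : Bool × ℕ × (S × Bool)} (h : i ∈ idx s0 L) :
    IsP s0 (FreeGroup.mk (wP s0 i)) := by
  obtain ⟨e, j, x⟩ := i
  have h := mem_idx.1 h
  exact ⟨e, j, x, h.1.1, h.2, toWord_wP h.2⟩

lemma isQ_mk {s0 : S} {L : ℕ} {i : Bool × ℕ × (S × Bool)} (h : i ∈ idx s0 L) :
    IsQ s0 (FreeGroup.mk (wQ s0 i)) := by
  obtain ⟨e, j, x⟩ := i
  have h := mem_idx.1 h
  exact ⟨e, j, x, h.1.1, h.2, toWord_wQ h.2⟩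

/-- evaluation of the sum over all words -/
lemma finsum_beta {s0 : S} {L : ℕ} (f : FreeGroup S → ℝ)
    (hf : ∀ w, beta s0 w ≠ 0 → f w ≠ 0 → w.toWord.length ≤ L + 1) :
    (Function.support (fun w => beta s0 w * f w)).Finite ∧
    ∑ᶠ w, beta s0 w * f w = ∑ i ∈ idx s0 L, f (FreeGroup.mk (wP s0 i)) -
      ∑ i ∈ idx s0 L, f (FreeGroup.mk (wQ s0 i)) := by
  set U : Finset (FreeGroup S) := (idx s0 L).image (fun i => FreeGroup.mk (wP s0 i)) with hU
  set V : Finset (FreeGroup S) := (idx s0 L).image (fun i => FreeGroup.mk (wQ s0 i)) with hV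
  have hUP : ∀ w ∈ U, IsP s0 w := by
    intro w hw
    rw [hU, Finset.mem_image] at hw
    obtain ⟨i, hi, rfl⟩ := hw
    exact isP_mk hi
  have hVQ : ∀ w ∈ V, IsQ s0 w := by
    intro w hw
    rw [hV, Finset.mem_image] at hw
    obtain ⟨i, hi, rfl⟩ := hw
    exact isQ_mk hi
  have hd : Disjoint U V := by
    rw [Finset.disjoint_left]
    intro w hw hw'
    exact not_both (hUP w hw) (hVQ w hw')
  have hsub : Function.support (fun w => beta s0 w * f w) ⊆ ((U ∪ V : Finset _) : Set _) := by
    intro w hw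
    rw [Function.mem_support] at hw
    have h1 : beta s0 w ≠ 0 := left_ne_zero_of_mul hw
    have h2 : f w ≠ 0 := right_ne_zero_of_mul hw
    have h3 := hf w h1 h2
    rw [Finset.mem_coe, Finset.mem_union]
    rcases beta_ne h1 with ⟨e, j, x, hj, hx, h⟩ | ⟨e, j, x, hj, hx, h⟩
    · left
      rw [hU, Finset.mem_image]
      refine ⟨(e, j, x), mem_idx.2 ⟨⟨hj, ?_⟩, hx⟩, ?_⟩
      · rw [h] at h3; simpa using h3
      · rw [← FreeGroup.mk_toWord (x := w), h]; rfl
    · right
      rw [hV, Finset.mem_image]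
      refine ⟨(e, j, x), mem_idx.2 ⟨⟨hj, ?_⟩, hx⟩, ?_⟩
      · rw [h] at h3; simpa using h3
      · rw [← FreeGroup.mk_toWord (x := w), h]; rfl
  refine ⟨Set.Finite.subset (Finset.finite_toSet _) hsub, ?_⟩
  rw [finsum_eq_sum_of_support_subset _ hsub, Finset.sum_union hd]
  have e1 : ∑ w ∈ U, beta s0 w * f w = ∑ w ∈ U, f w :=
    Finset.sum_congr rfl (fun w hw => by rw [beta_P (hUP w hw), one_mul])
  have e2 : ∑ w ∈ V, beta s0 w * f w = - ∑ w ∈ V, f w := by
    rw [← Finset.sum_neg_distrib]
    exact Finset.sum_congr rfl (fun w hw => by rw [beta_Q (hVQ w hw)]; ring)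
  rw [e1, e2, hU, hV, Finset.sum_image wP_inj, Finset.sum_image wQ_inj]
  ring

omit [Fintype S] in
/-- passing from a half of the words to all words -/
lemma finsum_half {P : Set (FreeGroup S)} (hP : IsHalf P) {s0 : S} (f : FreeGroup S → ℝ)
    (hf : (Function.support (fun w => beta s0 w * f w)).Finite) :
    ∑ᶠ w ∈ P, beta s0 w * (f w - f w⁻¹) = ∑ᶠ w, beta s0 w * f w := by
  classical
  set F : FreeGroup S → ℝ := fun w => beta s0 w * f w with hF
  have e1 : ∀ w, beta s0 w * (f w - f w⁻¹) = F w + F w⁻¹ := by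
    intro w
    simp only [hF, beta_inv]; ring
  simp only [e1]
  have hfin' : (Function.support (fun w => F w⁻¹)).Finite := by
    have : Function.support (fun w => F w⁻¹) = (Function.support F)⁻¹ := by
      ext w; simp
    rw [this]
    exact hf.inv
  have e2 : ∑ᶠ w ∈ P, (F w + F w⁻¹) = ∑ᶠ w ∈ P, F w + ∑ᶠ w ∈ P, F w⁻¹ := by
    apply finsum_mem_add_distrib'
    · exact hf.subset Set.inter_subset_right
    · exact hfin'.subset Set.inter_subset_right
  rw [e2]
  have e3 : ∑ᶠ w ∈ P, F w⁻¹ = ∑ᶠ w ∈ P⁻¹, F w := by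
    rw [finsum_mem_def, finsum_mem_def]
    rw [← finsum_comp_equiv (Equiv.inv (FreeGroup S))]
    apply finsum_congr
    intro w
    simp [Set.indicator]
  rw [e3, finsum_mem_def, finsum_mem_def, ← finsum_add_distrib]
  · apply finsum_congr
    intro w
    by_cases h0 : beta s0 w = 0
    · simp [Set.indicator, hF, h0]
    · have hn : NonSelfOverlapping w := by
        rcases beta_ne h0 with h | h
        · exact nso_P h
        · exact nso_Q h
      rcases hP.one w hn with h | h
      · simp [Set.indicator, h.1, h.2]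
      · simp [Set.indicator, h.1, h.2]
  · exact hf.subset (by rw [Set.support_indicator]; exact Set.inter_subset_right)
  · exact hf.subset (by rw [Set.support_indicator]; exact Set.inter_subset_right)

omit [Fintype S] [DecidableEq S] in
lemma red_sub {u w : List (S × Bool)} (hu : FreeGroup.IsReduced u) (h : w <:+: u) :
    FreeGroup.IsReduced w := by
  obtain ⟨s, t, rfl⟩ := h
  rw [FreeGroup.IsReduced, List.isChain_append, List.isChain_append] at hu
  exact hu.1.2.1

omit [Fintype S] in
lemma occ_cancel {s0 : S} {e : Bool} {j : ℕ} (hj : 1 ≤ j) {u : List (S × Bool)}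
    (hu : FreeGroup.IsReduced u) : occ (replicate j (s0, e) ++ [(s0, !e)]) u = 0 := by
  apply occ_eq_zero
  intro h
  have h1 := red_sub hu h
  obtain ⟨k, rfl⟩ : ∃ k, j = k + 1 := ⟨j - 1, by omega⟩
  have h2 := red_sub (w := [(s0, e), (s0, !e)]) h1 ⟨replicate k (s0, e), [], by
    rw [replicate_succ']; simp⟩
  simp [FreeGroup.IsReduced] at h2

omit [Fintype S] in
lemma occ_cancel' {s0 : S} {e : Bool} {j : ℕ} (hj : 1 ≤ j) {u : List (S × Bool)}
    (hu : FreeGroup.IsReduced u) : occ ((s0, !e) :: replicate j (s0, e)) u = 0 := by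
  apply occ_eq_zero
  intro h
  have h1 := red_sub hu h
  obtain ⟨k, rfl⟩ : ∃ k, j = k + 1 := ⟨j - 1, by omega⟩
  have h2 := red_sub (w := [(s0, !e), (s0, e)]) h1 ⟨[], replicate k (s0, e), by
    rw [replicate_succ]; simp⟩
  simp [FreeGroup.IsReduced] at h2

lemma sum_split {M : Type*} [AddCommMonoid M] (s0 : S) (e : Bool) (f : S × Bool → M) :
    ∑ x, f x = ∑ x ∈ Finset.univ.filter (fun x : S × Bool => x.1 ≠ s0), f x +
      (f (s0, e) + f (s0, !e)) := by
  rw [← Finset.sum_filter_add_sum_filter_not Finset.univ (fun x : S × Bool => x.1 ≠ s0)]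
  congr 1
  have : Finset.univ.filter (fun x : S × Bool => ¬ x.1 ≠ s0) = {(s0, e), (s0, !e)} := by
    ext ⟨a, b⟩
    simp only [Finset.mem_filter, Finset.mem_univ, true_and, Finset.mem_insert,
      Finset.mem_singleton, Prod.mk.injEq, not_not]
    cases b <;> cases e <;> simp
  rw [this, Finset.sum_pair (by simp)]

/-- the balance of the two families for one exponent -/
lemma balance {s0 : S} {e : Bool} {j : ℕ} (hj : 1 ≤ j) {u : List (S × Bool)}
    (hu : FreeGroup.IsReduced u) :
    (if replicate j (s0, e) <:+ u then 1 else 0) +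
      ∑ x ∈ Finset.univ.filter (fun x : S × Bool => x.1 ≠ s0), occ (wP s0 (e, j, x)) u =
    (if replicate j (s0, e) <+: u then 1 else 0) +
      ∑ x ∈ Finset.univ.filter (fun x : S × Bool => x.1 ≠ s0), occ (wQ s0 (e, j, x)) u := by
  have h1 := occ_left (replicate j (s0, e)) u
  have h2 := occ_right (replicate j (s0, e)) u
  rw [sum_split s0 e] at h1 h2
  rw [occ_cancel hj hu] at h2
  rw [occ_cancel' hj hu] at h1
  have h3 : replicate j (s0, e) ++ [(s0, e)] = (s0, e) :: replicate j (s0, e) := by
    rw [← replicate_succ', replicate_succ]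
  rw [h3] at h2
  simp only [wP, wQ]
  omega

end Sums

section Limits

variable {S : Type*} [DecidableEq S]

open List

/-- powers of a word -/
def pw (n : ℕ) (R : List (S × Bool)) : List (S × Bool) := (replicate n R).flatten

omit [DecidableEq S] in
lemma pw_succ (n : ℕ) (R : List (S × Bool)) : pw (n + 1) R = R ++ pw n R := by
  simp [pw, replicate_succ]

omit [DecidableEq S] in
lemma pw_add (m n : ℕ) (R : List (S × Bool)) : pw (m + n) R = pw m R ++ pw n R := by
  rw [pw, replicate_add, flatten_append]; rfl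

omit [DecidableEq S] in
lemma le_length_pw (n : ℕ) {R : List (S × Bool)} (h : R ≠ []) : n ≤ (pw n R).length := by
  have : 0 < R.length := List.length_pos_iff.2 h
  simp only [pw, length_flatten, map_replicate, sum_replicate, smul_eq_mul]
  exact Nat.le_mul_of_pos_right n this

lemma cnt_pw {w R : List (S × Bool)} (h : R ≠ []) {n m : ℕ} (hn : w.length ≤ n)
    (hm : w.length ≤ m) (A C C' : List (S × Bool)) :
    cnt w A (pw n R ++ C) = cnt w A (pw m R ++ C') := by
  have key : ∀ (n : ℕ) (C : List (S × Bool)), w.length ≤ n →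
      cnt w A (pw w.length R) = cnt w A (pw n R ++ C) := by
    intro n C hn
    obtain ⟨k, rfl⟩ := Nat.exists_eq_add_of_le hn
    apply cnt_congr _ (le_length_pw _ h)
    rw [pw_add, append_assoc]
    exact List.prefix_append _ _
  rw [← key n C hn, ← key m C' hm]

/-- number of occurrences in one period -/
def cyc (w g : FreeGroup S) : ℕ :=
  cnt w.toWord (FreeGroup.reduceCyclically g.toWord)
    (pw w.toWord.length (FreeGroup.reduceCyclically g.toWord))

lemma occ_step (w C R C' : List (S × Bool)) {n : ℕ} (hn : w.length ≤ n) :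
    occ w (C ++ (pw (n + 1) R ++ C')) =
      cnt w R (pw w.length R) + occ w (C ++ (pw n R ++ C')) := by
  by_cases hR : R = []
  · subst hR
    have : ∀ n, pw n ([] : List (S × Bool)) = [] := by
      intro n; simp [pw]
    simp [this, cnt]
  · rw [occ_append w C, occ_append w C, pw_succ, append_assoc, occ_append w R]
    have h1 : cnt w C (R ++ (pw n R ++ C')) = cnt w C (pw n R ++ C') := by
      rw [← append_assoc, ← pw_succ]
      exact cnt_pw hR (by omega) hn _ _ _
    have h2 : cnt w R (pw n R ++ C') = cnt w R (pw w.length R) := by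
      have := cnt_pw hR hn (le_refl w.length) R C' []
      rwa [append_nil] at this
    rw [h1, h2]
    omega

lemma toWord_pow' (g : FreeGroup S) {n : ℕ} (hn : n ≠ 0) :
    (g ^ n).toWord = FreeGroup.reduceCyclically.conjugator g.toWord ++
      (pw n (FreeGroup.reduceCyclically g.toWord) ++
        FreeGroup.invRev (FreeGroup.reduceCyclically.conjugator g.toWord)) := by
  rw [FreeGroup.toWord_pow,
    FreeGroup.reduceCyclically.reduce_flatten_replicate (FreeGroup.isReduced_toWord), if_neg hn,
    append_assoc]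
  rfl

lemma tendsto_of_step {E : ℕ → ℕ} {c n0 : ℕ} (h : ∀ n, n0 ≤ n → E (n + 1) = c + E n) :
    Tendsto (fun n : ℕ => (E n : ℝ) / (n : ℝ)) atTop (𝓝 (c : ℝ)) := by
  have h1 : ∀ n, n0 ≤ n → (E n : ℝ) = c * n + ((E n0 : ℝ) - c * n0) := by
    intro n hn
    induction n, hn using Nat.le_induction with
    | base => ring
    | succ n hn ih =>
      rw [h n hn]; push_cast; rw [ih]; ring
  have h2 : Tendsto (fun n : ℕ => (c : ℝ) + ((E n0 : ℝ) - c * n0) / (n : ℝ)) atTop
      (𝓝 ((c : ℝ) + 0)) :=
    tendsto_const_nhds.add (tendsto_const_div_atTop_nhds_zero_nat _)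
  rw [add_zero] at h2
  refine h2.congr' ?_
  filter_upwards [eventually_ge_atTop (max n0 1)] with n hn
  have h3 : n0 ≤ n := le_trans (le_max_left _ _) hn
  have h4 : 1 ≤ n := le_trans (le_max_right _ _) hn
  have h5 : (n : ℝ) ≠ 0 := by positivity
  rw [h1 n h3]
  field_simp

/-- the number of occurrences in powers grows linearly -/
lemma tendsto_occ (w g : FreeGroup S) :
    Tendsto (fun n : ℕ => (occ w.toWord (g ^ n).toWord : ℝ) / (n : ℝ)) atTop
      (𝓝 (cyc w g : ℝ)) := by
  apply tendsto_of_step (n0 := w.toWord.length + 1)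
  intro n hn
  rw [toWord_pow' g (by omega : n + 1 ≠ 0), toWord_pow' g (by omega : n ≠ 0)]
  exact occ_step _ _ _ _ (by omega)

/-- the homogenization exists -/
lemma tendsto_brooks (w g : FreeGroup S) :
    Tendsto (fun n : ℕ => brooks w (g ^ n) / (n : ℝ)) atTop
      (𝓝 ((cyc w g : ℝ) - (cyc w⁻¹ g : ℝ))) := by
  have := (tendsto_occ w g).sub (tendsto_occ w⁻¹ g)
  refine this.congr (fun n => ?_)
  rw [brooks, sub_div]

lemma brooksBar_eq (w g : FreeGroup S) :
    brooksBar w g = (cyc w g : ℝ) - (cyc w⁻¹ g : ℝ) :=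
  (tendsto_brooks w g).limUnder_eq

lemma exists_of_cnt_ne {w A u : List (S × Bool)} (h : cnt w A u ≠ 0) :
    ∃ B, B ≠ [] ∧ B <:+ A ∧ w <+: B ++ u := by
  induction A with
  | nil => exact absurd rfl h
  | cons y A ih =>
    rw [cnt] at h
    by_cases h1 : w <+: y :: (A ++ u)
    · exact ⟨y :: A, by simp, List.suffix_refl _, by simpa using h1⟩
    · rw [if_neg h1, zero_add] at h
      obtain ⟨B, hB, hBA, hw⟩ := ih h
      exact ⟨B, hB, hBA.trans (List.suffix_cons y A), hw⟩

omit [DecidableEq S] in
lemma mem_pw {n : ℕ} {R : List (S × Bool)} {y : S × Bool} (h : y ∈ pw n R) : y ∈ R := by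
  rw [pw, List.mem_flatten] at h
  obtain ⟨l, hl, hy⟩ := h
  rw [List.eq_of_mem_replicate hl] at hy
  exact hy

/-- long words of the two families do not occur in periodic words -/
lemma cyc_eq_zero {s0 : S} {w g : FreeGroup S} (hw : IsP s0 w ∨ IsQ s0 w)
    (hl : 2 * (FreeGroup.reduceCyclically g.toWord).length + 1 < w.toWord.length) :
    cyc w g = 0 := by
  by_contra hc
  rw [cyc] at hc
  set R := FreeGroup.reduceCyclically g.toWord with hR
  obtain ⟨B, hB, hBR, hp⟩ := exists_of_cnt_ne hc
  have hBl : B.length ≤ R.length := hBR.length_le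
  have hBp : 0 < B.length := List.length_pos_iff.2 hB
  obtain ⟨k, hk⟩ : ∃ k, w.toWord.length = k + 1 := ⟨w.toWord.length - 1, by omega⟩
  rw [hk, pw_succ] at hp
  rcases hw with ⟨e, j, x, hj, hx, h⟩ | ⟨e, j, x, hj, hx, h⟩
  · rw [h] at hp hl
    simp only [length_append, length_replicate, length_cons, length_nil] at hl
    have h1 : B ++ R <+: B ++ (R ++ pw k R) := ⟨pw k R, by simp⟩
    have h2 : replicate j (s0, e) <+: B ++ (R ++ pw k R) :=
      (List.prefix_append _ [x]).trans hp
    have h3 : B ++ R <+: replicate j (s0, e) :=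
      List.prefix_of_prefix_length_le h1 h2 (by simp; omega)
    have h4 : ∀ y ∈ B ++ R, y = (s0, e) := fun y hy => List.eq_of_mem_replicate (h3.subset hy)
    have h5 : x ∈ B ++ (R ++ pw k R) := hp.subset (by simp)
    have h6 : x = (s0, e) := by
      simp only [List.mem_append] at h5 h4
      rcases h5 with h5 | h5 | h5
      · exact h4 _ (Or.inl h5)
      · exact h4 _ (Or.inr h5)
      · exact h4 _ (Or.inr (mem_pw h5))
    exact hx (by rw [h6])
  · rw [h] at hp hl
    simp only [length_replicate, length_cons] at hl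
    obtain ⟨b, B₁, rfl⟩ : ∃ b B₁, B = b :: B₁ := List.exists_cons_of_ne_nil hB
    rw [cons_append, List.cons_prefix_cons] at hp
    obtain ⟨rfl, hp⟩ := hp
    simp only [length_cons] at hBl
    have h1 : B₁ ++ R <+: B₁ ++ (R ++ pw k R) := ⟨pw k R, by simp⟩
    have h3 : B₁ ++ R <+: replicate j (s0, e) :=
      List.prefix_of_prefix_length_le h1 hp (by simp; omega)
    have h4 : x ∈ R := hBR.subset (by simp)
    have h5 : x = (s0, e) := List.eq_of_mem_replicate (h3.subset (by simp [h4]))
    exact hx (by rw [h5])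

end Limits

section Main

variable {S : Type*} [DecidableEq S] [Fintype S]

open List

lemma sum_idx {M : Type*} [AddCommMonoid M] (s0 : S) (L : ℕ) (f : Bool × ℕ × (S × Bool) → M) :
    ∑ i ∈ idx s0 L, f i = ∑ e : Bool, ∑ j ∈ Finset.Icc 1 L,
      ∑ x ∈ Finset.univ.filter (fun x : S × Bool => x.1 ≠ s0), f (e, j, x) := by
  rw [idx, Finset.sum_product]
  refine Finset.sum_congr rfl (fun e _ => ?_)
  rw [Finset.sum_product]

/-- the difference of the two sums is given by the first and the last run -/
lemma sum_diff (s0 : S) (L : ℕ) {u : List (S × Bool)} (hu : FreeGroup.IsReduced u) :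
    ∑ i ∈ idx s0 L, (occ (wP s0 i) u : ℝ) - ∑ i ∈ idx s0 L, (occ (wQ s0 i) u : ℝ) =
      ∑ e : Bool, ∑ j ∈ Finset.Icc 1 L,
        ((if replicate j (s0, e) <+: u then (1 : ℝ) else 0) -
          (if replicate j (s0, e) <:+ u then (1 : ℝ) else 0)) := by
  rw [sum_idx, sum_idx, ← Finset.sum_sub_distrib]
  refine Finset.sum_congr rfl (fun e _ => ?_)
  rw [← Finset.sum_sub_distrib]
  refine Finset.sum_congr rfl (fun j hj => ?_)
  have h := balance (e := e) (s0 := s0) (Finset.mem_Icc.1 hj).1 hu
  have h' := congrArg (fun n : ℕ => (n : ℝ)) h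
  simp only [Nat.cast_add, Nat.cast_sum, Nat.cast_ite, Nat.cast_one, Nat.cast_zero] at h'
  linarith

/-- closed formula for the infinite sum -/
lemma brooksSum_eq {P : Set (FreeGroup S)} (hP : IsHalf P) (s0 : S) (g : FreeGroup S) {L : ℕ}
    (hL : g.toWord.length ≤ L + 1) :
    brooksSum (beta s0) P g = ∑ e : Bool, ∑ j ∈ Finset.Icc 1 L,
        ((if replicate j (s0, e) <+: g.toWord then (1 : ℝ) else 0) -
          (if replicate j (s0, e) <:+ g.toWord then (1 : ℝ) else 0)) := by
  set f : FreeGroup S → ℝ := fun w => (occ w.toWord g.toWord : ℝ) with hf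
  have h0 : ∀ w, beta s0 w ≠ 0 → f w ≠ 0 → w.toWord.length ≤ L + 1 := by
    intro w _ hw
    by_contra hc
    apply hw
    simp only [hf, Nat.cast_eq_zero]
    apply occ_eq_zero
    intro h
    have := h.length_le
    omega
  obtain ⟨h1, h2⟩ := finsum_beta f h0
  have h3 := finsum_half hP f h1
  have h4 : brooksSum (beta s0) P g = ∑ᶠ w ∈ P, beta s0 w * (f w - f w⁻¹) := rfl
  rw [h4, h3, h2, ← sum_diff s0 L FreeGroup.isReduced_toWord]
  congr 1
  · refine Finset.sum_congr rfl (fun i hi => ?_)
    simp only [hf]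
    rw [toWord_wP (mem_idx.1 hi).2]
  · refine Finset.sum_congr rfl (fun i hi => ?_)
    simp only [hf]
    rw [toWord_wQ (mem_idx.1 hi).2]

/-- the termwise homogenization vanishes -/
lemma brooksBarSum_eq {P : Set (FreeGroup S)} (hP : IsHalf P) (s0 : S) (g : FreeGroup S) :
    brooksBarSum (beta s0) P g = 0 := by
  set L := 2 * (FreeGroup.reduceCyclically g.toWord).length with hLdef
  set f : FreeGroup S → ℝ := fun w => (cyc w g : ℝ) with hf
  have h0 : ∀ w, beta s0 w ≠ 0 → f w ≠ 0 → w.toWord.length ≤ L + 1 := by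
    intro w hb hw
    by_contra hc
    apply hw
    simp only [hf, Nat.cast_eq_zero]
    exact cyc_eq_zero (beta_ne hb) (by omega)
  obtain ⟨h1, h2⟩ := finsum_beta f h0
  have h3 := finsum_half hP f h1
  have h4 : brooksBarSum (beta s0) P g = ∑ᶠ w ∈ P, beta s0 w * (f w - f w⁻¹) := by
    rw [brooksBarSum]
    simp only [brooksBar_eq, hf]
  rw [h4, h3, h2]
  have hlim : Tendsto (fun n : ℕ =>
      ∑ i ∈ idx s0 L, (occ (FreeGroup.mk (wP s0 i)).toWord (g ^ n).toWord : ℝ) / (n : ℝ) -
      ∑ i ∈ idx s0 L, (occ (FreeGroup.mk (wQ s0 i)).toWord (g ^ n).toWord : ℝ) / (n : ℝ)) atTop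
      (𝓝 (∑ i ∈ idx s0 L, f (FreeGroup.mk (wP s0 i)) -
        ∑ i ∈ idx s0 L, f (FreeGroup.mk (wQ s0 i)))) :=
    (tendsto_finsetSum _ (fun i _ => tendsto_occ _ g)).sub
      (tendsto_finsetSum _ (fun i _ => tendsto_occ _ g))
  have hzero : Tendsto (fun n : ℕ =>
      ∑ i ∈ idx s0 L, (occ (FreeGroup.mk (wP s0 i)).toWord (g ^ n).toWord : ℝ) / (n : ℝ) -
      ∑ i ∈ idx s0 L, (occ (FreeGroup.mk (wQ s0 i)).toWord (g ^ n).toWord : ℝ) / (n : ℝ)) atTop
      (𝓝 0) := by
    have hb : ∀ n : ℕ,
      ‖∑ i ∈ idx s0 L, (occ (FreeGroup.mk (wP s0 i)).toWord (g ^ n).toWord : ℝ) / (n : ℝ) -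
      ∑ i ∈ idx s0 L, (occ (FreeGroup.mk (wQ s0 i)).toWord (g ^ n).toWord : ℝ) / (n : ℝ)‖ ≤
        (2 * L : ℝ) / (n : ℝ) := by
      intro n
      rw [← Finset.sum_div, ← Finset.sum_div, ← sub_div, norm_div, Real.norm_natCast]
      apply div_le_div_of_nonneg_right _ (Nat.cast_nonneg n)
      have e1 : ∑ i ∈ idx s0 L, (occ (FreeGroup.mk (wP s0 i)).toWord (g ^ n).toWord : ℝ) =
          ∑ i ∈ idx s0 L, (occ (wP s0 i) (g ^ n).toWord : ℝ) :=
        Finset.sum_congr rfl (fun i hi => by rw [toWord_wP (mem_idx.1 hi).2])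
      have e2 : ∑ i ∈ idx s0 L, (occ (FreeGroup.mk (wQ s0 i)).toWord (g ^ n).toWord : ℝ) =
          ∑ i ∈ idx s0 L, (occ (wQ s0 i) (g ^ n).toWord : ℝ) :=
        Finset.sum_congr rfl (fun i hi => by rw [toWord_wQ (mem_idx.1 hi).2])
      rw [e1, e2, sum_diff s0 L FreeGroup.isReduced_toWord]
      have hbd : ∀ (e : Bool), ‖∑ j ∈ Finset.Icc 1 L,
        ((if replicate j (s0, e) <+: (g ^ n).toWord then (1 : ℝ) else 0) -
          (if replicate j (s0, e) <:+ (g ^ n).toWord then (1 : ℝ) else 0))‖ ≤ L := by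
        intro e
        refine (norm_sum_le _ _).trans ?_
        have : ∀ j ∈ Finset.Icc 1 L,
            ‖(if replicate j (s0, e) <+: (g ^ n).toWord then (1 : ℝ) else 0) -
          (if replicate j (s0, e) <:+ (g ^ n).toWord then (1 : ℝ) else 0)‖ ≤ 1 := by
          intro j _
          split_ifs <;> simp
        refine (Finset.sum_le_sum this).trans ?_
        simp
      refine (norm_sum_le _ _).trans ?_
      rw [Fintype.sum_bool]
      have h5 := hbd true
      have h6 := hbd false
      linarith
    exact squeeze_zero_norm hb (tendsto_const_div_atTop_nhds_zero_nat _)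
  exact tendsto_nhds_unique hlim hzero

omit [Fintype S] in
lemma toWord_a (s0 : S) (n : ℕ) :
    ((FreeGroup.of s0 : FreeGroup S) ^ n).toWord = replicate n (s0, true) := by
  have : (FreeGroup.of s0 : FreeGroup S) ^ n = FreeGroup.mk (replicate n (s0, true)) := by
    rw [FreeGroup.of, FreeGroup.pow_mk]
    congr 1
    simp [List.flatten_replicate_singleton]
  rw [this, FreeGroup.toWord_mk]
  exact (isReduced_replicate n _).reduce_eq

omit [Fintype S] in
lemma toWord_ab (s0 s1 : S) (h : s1 ≠ s0) (n : ℕ) :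
    ((FreeGroup.of s0 : FreeGroup S) ^ n * FreeGroup.of s1).toWord =
      replicate n (s0, true) ++ [(s1, true)] := by
  have h1 : (FreeGroup.of s0 : FreeGroup S) ^ n * FreeGroup.of s1 =
      FreeGroup.mk (wP s0 (true, n, (s1, true))) := by
    rw [wP, ← FreeGroup.mul_mk, FreeGroup.of, FreeGroup.of, FreeGroup.pow_mk]
    congr 2
    simp [List.flatten_replicate_singleton]
  rw [h1, toWord_wP (by exact h)]
  rfl

lemma sum_a {P : Set (FreeGroup S)} (hP : IsHalf P) (s0 : S) (n : ℕ) :
    brooksSum (beta s0) P ((FreeGroup.of s0 : FreeGroup S) ^ n) = 0 := by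
  rw [brooksSum_eq hP s0 _ (L := n) (by rw [toWord_a]; simp), toWord_a]
  apply Finset.sum_eq_zero
  intro e _
  apply Finset.sum_eq_zero
  intro j _
  have : (replicate j (s0, e) <:+ replicate n (s0, true)) ↔
      (replicate j (s0, e) <+: replicate n (s0, true)) := by
    rw [← List.reverse_suffix]
    simp
  simp [this]

lemma sum_b {P : Set (FreeGroup S)} (hP : IsHalf P) (s0 s1 : S) :
    brooksSum (beta s0) P (FreeGroup.of s1) = 0 := by
  rw [brooksSum_eq hP s0 _ (L := 0) (by simp)]
  simp

lemma sum_ab {P : Set (FreeGroup S)} (hP : IsHalf P) (s0 s1 : S) (h : s1 ≠ s0) (n : ℕ) :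
    brooksSum (beta s0) P ((FreeGroup.of s0 : FreeGroup S) ^ n * FreeGroup.of s1) = n := by
  rw [brooksSum_eq hP s0 _ (L := n) (by rw [toWord_ab s0 s1 h]; simp), toWord_ab s0 s1 h]
  have h1 : ∀ (e : Bool) (j : ℕ), 1 ≤ j →
      ¬ (replicate j (s0, e) <:+ replicate n (s0, true) ++ [(s1, true)]) := by
    intro e j hj hs
    obtain ⟨k, rfl⟩ : ∃ k, j = k + 1 := ⟨j - 1, by omega⟩
    have h2 := hs.getLast (by simp)
    rw [List.getLast_append] at h2
    simp at h2
    exact h h2.1.symm
  have h2 : ∀ (j : ℕ), 1 ≤ j →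
      ¬ (replicate j (s0, false) <+: replicate n (s0, true) ++ [(s1, true)]) := by
    intro j hj hs
    have h3 : (s0, false) ∈ replicate n (s0, true) ++ [(s1, true)] := hs.subset (by simp; omega)
    simp at h3
  have h3 : ∀ (j : ℕ), j ≤ n →
      (replicate j (s0, true) <+: replicate n (s0, true) ++ [(s1, true)]) := by
    intro j hj
    obtain ⟨k, rfl⟩ := Nat.exists_eq_add_of_le hj
    rw [replicate_add, append_assoc]
    exact List.prefix_append _ _
  rw [Fintype.sum_bool]
  have e1 : ∑ j ∈ Finset.Icc 1 n,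
        ((if replicate j (s0, true) <+: replicate n (s0, true) ++ [(s1, true)] then (1 : ℝ)
            else 0) -
          (if replicate j (s0, true) <:+ replicate n (s0, true) ++ [(s1, true)] then (1 : ℝ)
            else 0)) = n := by
    rw [Finset.sum_congr rfl (g := fun _ => (1 : ℝ))]
    · simp
    · intro j hj
      rw [Finset.mem_Icc] at hj
      rw [if_pos (h3 j hj.2), if_neg (h1 true j hj.1), sub_zero]
  have e2 : ∑ j ∈ Finset.Icc 1 n,
        ((if replicate j (s0, false) <+: replicate n (s0, true) ++ [(s1, true)] then (1 : ℝ)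
            else 0) -
          (if replicate j (s0, false) <:+ replicate n (s0, true) ++ [(s1, true)] then (1 : ℝ)
            else 0)) = 0 := by
    apply Finset.sum_eq_zero
    intro j hj
    rw [Finset.mem_Icc] at hj
    rw [if_neg (h2 j hj.1), if_neg (h1 false j hj.1), sub_zero]
  rw [e1, e2, add_zero]

lemma not_quasi {P : Set (FreeGroup S)} (hP : IsHalf P) (s0 s1 : S) (h : s1 ≠ s0) :
    ¬ IsQuasi (brooksSum (beta s0) P) := by
  rintro ⟨D, hD⟩
  obtain ⟨n, hn⟩ := exists_nat_gt D
  have := hD ((FreeGroup.of s0 : FreeGroup S) ^ n) (FreeGroup.of s1)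
  rw [sum_a hP, sum_b hP s0 s1, sum_ab hP s0 s1 h] at this
  simp at this
  linarith

lemma nso_inv {w : FreeGroup S} (h : NonSelfOverlapping w) : NonSelfOverlapping w⁻¹ := by
  obtain ⟨h1, h2⟩ := h
  refine ⟨by simpa using h1, fun u hu hne hp hs => ?_⟩
  rw [FreeGroup.toWord_inv] at hne hp hs
  refine h2 (FreeGroup.invRev u) ?_ ?_ ?_ ?_
  · intro h3
    apply hu
    have := congrArg FreeGroup.invRev h3
    rw [FreeGroup.invRev_invRev] at this
    simpa [FreeGroup.invRev] using this
  · intro h3
    apply hne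
    rw [← h3, FreeGroup.invRev_invRev]
  · obtain ⟨t, ht⟩ := hs
    refine ⟨FreeGroup.invRev t, ?_⟩
    have := congrArg FreeGroup.invRev ht
    rw [FreeGroup.invRev_invRev] at this
    rw [← this]
    simp [FreeGroup.invRev]
  · obtain ⟨t, ht⟩ := hp
    refine ⟨FreeGroup.invRev t, ?_⟩
    have := congrArg FreeGroup.invRev ht
    rw [FreeGroup.invRev_invRev] at this
    rw [← this]
    simp [FreeGroup.invRev]

lemma exists_half : ∃ P : Set (FreeGroup S), IsHalf P := by
  classical
  let _ : LinearOrder (FreeGroup S) := linearOrderOfSTO WellOrderingRel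
  refine ⟨{w | NonSelfOverlapping w ∧ w < w⁻¹}, ⟨fun w hw => hw.1, fun w hw => ?_⟩⟩
  have hne : w ≠ w⁻¹ := by
    intro h
    apply hw.1
    have h2 : w ^ 2 = 1 := by
      rw [pow_two]; nth_rewrite 2 [h]; exact mul_inv_cancel w
    exact (pow_eq_one_iff_left (two_ne_zero)).1 h2
  rcases lt_or_gt_of_ne hne with h | h
  · left
    refine ⟨⟨hw, h⟩, fun h' => ?_⟩
    have h3 := h'.2
    rw [inv_inv] at h3
    exact lt_asymm h h3
  · right
    refine ⟨fun h' => lt_asymm h h'.2, ⟨nso_inv hw, by rwa [inv_inv]⟩⟩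

end Main

/-- **Main result.** Let `S` be a finite set with at least two elements. There is an alternating
coefficient map `α` on the free group on `S`, supported on the non-self-overlapping words and
bounded by `1`, such that for every choice `P` of one word from each pair `w, w⁻¹` of
non-self-overlapping words the termwise homogenization `∑_{w ∈ P} α_w * (homogenization of h_w)`
is identically zero (in particular a quasimorphism), while the sum `∑_{w ∈ P} α_w * h_w` is not
a quasimorphism. All sums are finite at each element, all homogenizations exist, and such `P`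
exist. -/
theorem result (S : Type*) [Fintype S] [Nontrivial S] [DecidableEq S] :
    (∃ P : Set (FreeGroup S), IsHalf P) ∧
    ∃ α : FreeGroup S → ℝ, (∀ w, α w⁻¹ = - α w) ∧ (∀ w, ¬ NonSelfOverlapping w → α w = 0) ∧
      (∀ w, |α w| ≤ 1) ∧
      ∀ P : Set (FreeGroup S), IsHalf P →
        (∀ w ∈ P, ∀ g, Tendsto (fun n : ℕ => brooks w (g ^ n) / (n : ℝ)) atTop
          (𝓝 (brooksBar w g))) ∧
        (∀ g, {w | w ∈ P ∧ α w * brooks w g ≠ 0}.Finite) ∧
        (∀ g, {w | w ∈ P ∧ α w * brooksBar w g ≠ 0}.Finite) ∧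
        (∀ g, brooksBarSum α P g = 0) ∧ IsQuasi (brooksBarSum α P) ∧
        ¬ IsQuasi (brooksSum α P) := by
  obtain ⟨s0, s1, h01⟩ := exists_pair_ne S
  refine ⟨exists_half, beta s0, beta_inv s0, fun w hw => ?_, beta_abs s0, fun P hP => ?_⟩
  · by_contra hc
    rcases beta_ne hc with h | h
    · exact hw (nso_P h)
    · exact hw (nso_Q h)
  · refine ⟨fun w _ g => ?_, fun g => ?_, fun g => ?_, fun g => brooksBarSum_eq hP s0 g, ?_,
      not_quasi hP s0 s1 (Ne.symm h01)⟩
    · rw [brooksBar_eq]; exact tendsto_brooks w g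
    · have hfin : {w : FreeGroup S | w.toWord.length ≤ g.toWord.length}.Finite := by
        have : {w : FreeGroup S | w.toWord.length ≤ g.toWord.length} ⊆
            FreeGroup.toWord ⁻¹' {l : List (S × Bool) | l.length ≤ g.toWord.length} := by
          intro w hw; exact hw
        exact ((List.finite_length_le _ _).preimage
          FreeGroup.toWord_injective.injOn).subset this
      refine hfin.subset ?_
      rintro w ⟨_, hw⟩
      by_contra hc
      apply right_ne_zero_of_mul hw
      simp only [Set.mem_setOf_eq, not_le] at hc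
      have e1 : occ w.toWord g.toWord = 0 := by
        apply occ_eq_zero
        intro h; have := h.length_le; omega
      have e2 : occ w⁻¹.toWord g.toWord = 0 := by
        apply occ_eq_zero
        intro h; have := h.length_le
        rw [FreeGroup.toWord_inv, FreeGroup.invRev_length] at this; omega
      rw [brooks, e1, e2]; simp
    · have hfin : {w : FreeGroup S | w.toWord.length ≤
          2 * (FreeGroup.reduceCyclically g.toWord).length + 1}.Finite := by
        have : {w : FreeGroup S | w.toWord.length ≤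
          2 * (FreeGroup.reduceCyclically g.toWord).length + 1} ⊆
            FreeGroup.toWord ⁻¹' {l : List (S × Bool) | l.length ≤
              2 * (FreeGroup.reduceCyclically g.toWord).length + 1} := by
          intro w hw; exact hw
        exact ((List.finite_length_le _ _).preimage
          FreeGroup.toWord_injective.injOn).subset this
      refine hfin.subset ?_
      rintro w ⟨_, hw⟩
      by_contra hc
      apply right_ne_zero_of_mul hw
      have hb := left_ne_zero_of_mul hw
      simp only [Set.mem_setOf_eq, not_le] at hc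
      have hb' := beta_ne hb
      have hb'' : IsP s0 w⁻¹ ∨ IsQ s0 w⁻¹ := by
        rw [isP_inv, isQ_inv]; exact hb'.symm
      rw [brooksBar_eq, cyc_eq_zero hb' (by omega), cyc_eq_zero hb'' (by
        rw [FreeGroup.toWord_inv, FreeGroup.invRev_length]; omega)]
      simp
    · refine ⟨0, fun g k => ?_⟩
      simp [brooksBarSum_eq hP s0]


end Pool.Agent.Results.MP_c1a8be_al.BrooksTermwise
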